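import Pool.Agent.Helper86.GM.StepG0
import Pool.Agent.Helper82.RT.D1
import Pool.Agent.Helper65.GM.LocG
import Pool.Agent.Helper76.GM.D3
import Pool.Agent.Helper33.GM.OrG

/-!
# Project GM, D4: one step of the iteration
-/

open MeasureTheory Real Set Filter Topology

set_option autoImplicit false

namespace Pool.Agent.Helper60.GM

open Pool.Agent.Helper22.AE
open Pool.Agent.Helper92.GC (dt tp Tq uu tt arc dd sqa m6)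
open Pool.Agent.Helper92.DT (m12 IsMul12)
open Pool.Agent.Helper60.LT (Fr Tf xf yf df vf fr ac co Cut BB PP)
open Pool.Agent.Helper60.QL (nm Cone)
open Pool.Agent.Helper60.RT (R2 cn FR sp Pr prs ctr lf2 ln2 Dec12)

/-- D4 -/
theorem stepG {ε lam Λ B₀ B C₀ : ℝ} {M : ℕ} (hl : 1 ≤ lam) (hΛ : 1 ≤ Λ) (hB₀ : 1 ≤ B₀) (hB : 1 ≤ B) (hM : 2 ≤ M) (hC₀ : 1 ≤ C₀) (hd : Dec12 ε lam M C₀) (n : ℕ) :
    ∃ C B' E : ℝ, ∃ m₁ : ℕ, 1 ≤ C ∧ B ≤ B' ∧ 1 ≤ E ∧ StepG ε lam Λ M n B₀ B C B' E m₁ := by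
  obtain ⟨C₄, E₀, hC₄, hE₀, hbox⟩ := Pool.Agent.Helper60.RT.boxdec12 hC₀ hd n
  obtain ⟨C₇, c, B', -, hc, hB', hor⟩ := orG hB₀ hB
  have hB'1 : 1 ≤ B' := hB.trans hB'
  obtain ⟨C₃, w₀, hC₃, hw₀, hw₀1, hloc⟩ := locG hB₀ hB'1 hl
  obtain ⟨C₅, hC₅, hup⟩ := upG hB₀ hB
  obtain ⟨C₆, hC₆, hlo⟩ := loG hB₀ hB'1 (by linarith : 1 ≤ 4 * Λ)
  exact stepG_of86 hl hΛ hB₀ hB hM hC₄ hE₀ hbox hc hB' hor hC₃ hw₀ hw₀1 hloc hC₅ hup hC₆ hlo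

end Pool.Agent.Helper60.GM
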