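import Pool.Agent.Helper60.GM.Defs
import Pool.Agent.Helper86.RT.Abs

/-!
# Project GM, D4: one step of the iteration, from the blocks D2, D3 as hypotheses
-/

open MeasureTheory Real Set Filter Topology

set_option autoImplicit false

namespace Pool.Agent.Helper60.GM

open Pool.Agent.Helper22.AE
open Pool.Agent.Helper92.GC (dt tp Tq uu tt arc dd)
open Pool.Agent.Helper92.DT (m12 IsMul12 m12_nonneg)
open Pool.Agent.Helper60.QL (nm Cone)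
open Pool.Agent.Helper60.RT (R2 lf2 ln2 Dec12 Box86)

/-! ## The statements of the blocks with their constants -/

/-- the statement of `locG` with its constants -/
def LocG86 (B₀ B lam C w₀ : ℝ) : Prop :=
    ∀ (F : Fam), F.Ok B₀ → ∀ (X H w ρ σ t₀ s₀ l r s r' s' : ℝ) (S : Finset (ℤ × ℤ)), 0 < X → 0 < H → 0 < w → w ≤ w₀ → |t₀| ≤ 3 → 0 < σ → In s₀ l →
      (∀ v ∈ Icc (s₀ - l) (s₀ + l), σ ≤ |F.J v t₀|) → r ∈ Icc (X / B) (B * X) → r' ∈ Icc (X / B) (B * X) → s ∈ Icc (s₀ - l) (s₀ + l) → s' ∈ Icc (s₀ - l) (s₀ + l) →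
      |(Ar F t₀ (r', s')).1 - (Ar F t₀ (r, s)).1| ≤ ρ → |(Ar F t₀ (r', s')).2 - (Ar F t₀ (r, s)).2| ≤ ρ →
      (∀ k ∈ S, 0 < uu 0 k ∧ uu 0 k ≤ lam * H ∧ |tt 0 k - t₀| ≤ w) → ρ * H * w ^ 4 ≤ σ →
      mf F S r' s' ≤ C * lf2 t₀ S (fun k => ee (r * ((k.1 : ℝ) * F.q s (tt 0 k)))) (Ar F t₀ (r', s') - Ar F t₀ (r, s)) ∧
      lf2 t₀ S (fun k => ee (r * ((k.1 : ℝ) * F.q s (tt 0 k)))) (Ar F t₀ (r', s') - Ar F t₀ (r, s)) ≤ C * mf F S r' s'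

/-- the statement of `upG` with its constant -/
def UpG86 (B₀ B C : ℝ) : Prop :=
  ∀ (F : Fam), F.Ok B₀ → ∀ (X σ t₀ s₀ l : ℝ) (G : R2 → ENNReal), 0 < X → |t₀| ≤ 3 → 0 < σ → In s₀ l →
    (∀ v ∈ Icc (s₀ - l) (s₀ + l), σ ≤ |F.J v t₀|) → Measurable G →
      ∫⁻ s in Icc (s₀ - l) (s₀ + l), ∫⁻ r in Icc (X / B) (B * X), G (Ar F t₀ (r, s)) ≤ ENNReal.ofReal (C / (X * σ)) * ∫⁻ A in OR F t₀ s₀ l B X, G A

/-- the statement of `loG` with its constant -/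
def LoG86 (B₀ B Λ C : ℝ) : Prop :=
  ∀ (F : Fam), F.Ok B₀ → ∀ (X σ t₀ s₀ l : ℝ) (G : R2 → ENNReal), 0 < X → |t₀| ≤ 3 → 0 < σ → In s₀ l →
    (∀ v ∈ Icc (s₀ - l) (s₀ + l), σ ≤ |F.J v t₀| ∧ |F.J v t₀| ≤ Λ * σ) → Measurable G →
      ∫⁻ A in OR F t₀ s₀ l B X, G A ≤ ENNReal.ofReal (C * X * σ) * ∫⁻ s in Icc (s₀ - l) (s₀ + l), ∫⁻ r in Icc (X / B) (B * X), G (Ar F t₀ (r, s))

/-- the statement of `orG` with its constants -/
def OrG86 (B₀ B C c B' : ℝ) : Prop :=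
  ∀ (F : Fam), F.Ok B₀ → ∀ (X σ t₀ s₀ l : ℝ), 0 < X → |t₀| ≤ 3 → 0 < σ → In s₀ (2 * l) →
    (∀ v ∈ Icc (s₀ - 2 * l) (s₀ + 2 * l), σ ≤ |F.J v t₀|) → MeasurableSet (OR F t₀ s₀ l B X) ∧ volume (OR F t₀ s₀ l B X) ≤ ENNReal.ofReal (C * X ^ 2) ∧
      (∀ z ∈ Icc (X / B) (B * X) ×ˢ Icc (s₀ - l) (s₀ + l), Metric.closedBall (Ar F t₀ z) (c * (σ * l) * X) ⊆ OR F t₀ s₀ (2 * l) B' X) ∧
      InjOn (Ar F t₀) (Ioi 0 ×ˢ Icc (s₀ - 2 * l) (s₀ + 2 * l))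

/-! ## Tools -/

theorem ArC86 {F : Fam} {B₀ : ℝ} (hF : F.Ok B₀) {t₀ : ℝ} (ht : |t₀| ≤ 3) {s₀ l : ℝ} (hin : In s₀ l) (I : Set ℝ) :
    ContinuousOn (Ar F t₀) (I ×ˢ Icc (s₀ - l) (s₀ + l)) := by
  have ht' : |t₀| ≤ 12 := by linarith
  have hmem : ∀ s ∈ Icc (s₀ - l) (s₀ + l), s ∈ Icc (-1 : ℝ) 2 := fun s hs => ⟨hin.2.1.trans hs.1, hs.2.trans hin.2.2⟩
  have hp : ContinuousOn (fun s => F.p s t₀) (Icc (s₀ - l) (s₀ + l)) := fun s hs =>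
    (hF.hps s (hmem s hs) t₀ ht').continuousAt.continuousWithinAt
  have hx : ContinuousOn (fun s => F.x s t₀) (Icc (s₀ - l) (s₀ + l)) := fun s hs =>
    (hF.hx s (hmem s hs) t₀ ht').continuousAt.continuousWithinAt
  have hp2 : ContinuousOn (fun z : R2 => F.p z.2 t₀) (I ×ˢ Icc (s₀ - l) (s₀ + l)) :=
    hp.comp continuousOn_snd fun z hz => hz.2
  have hx2 : ContinuousOn (fun z : R2 => F.x z.2 t₀) (I ×ˢ Icc (s₀ - l) (s₀ + l)) :=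
    hx.comp continuousOn_snd fun z hz => hz.2
  have h1 : ContinuousOn (fun z : R2 => z.1 * F.p z.2 t₀ / 2) (I ×ˢ Icc (s₀ - l) (s₀ + l)) :=
    (continuousOn_fst.mul hp2).div_const 2
  exact h1.prodMk (hx2.mul h1).neg

theorem OR_cpt86 {F : Fam} {B₀ : ℝ} (hF : F.Ok B₀) {t₀ : ℝ} (ht : |t₀| ≤ 3) {s₀ l : ℝ} (hin : In s₀ l) (B X : ℝ) :
    IsCompact (OR F t₀ s₀ l B X) := by
  unfold OR
  exact (isCompact_Icc.prod isCompact_Icc).image_of_continuousOn (ArC86 hF ht hin _)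

theorem OR_bd86 {F : Fam} {B₀ : ℝ} (hF : F.Ok B₀) {t₀ : ℝ} (ht : |t₀| ≤ 3) {s₀ l : ℝ} (hin : In s₀ l) {B X : ℝ} (hB : 1 ≤ B) (hX : 0 < X) :
    OR F t₀ s₀ l B X ⊆ Metric.closedBall 0 (B * B₀ * X) := by
  rintro A ⟨z, ⟨hz1, hz2⟩, rfl⟩
  have ht' : |t₀| ≤ 12 := by linarith
  have hmem : z.2 ∈ Icc (-1 : ℝ) 2 := ⟨hin.2.1.trans hz2.1, hz2.2.trans hin.2.2⟩
  have hB₀ : 1 ≤ B₀ := hF.B1
  have hlo := hF.p_lo z.2 hmem t₀ ht'
  obtain ⟨-, -, h3, h4, -⟩ := hF.bd z.2 hmem t₀ ht'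
  have hp : 0 < F.p z.2 t₀ := by
    by_contra hcon
    push Not at hcon
    have : B₀ * F.p z.2 t₀ ≤ 0 := mul_nonpos_of_nonneg_of_nonpos (by linarith) hcon
    linarith
  have hr0 : 0 ≤ z.1 := le_trans (by positivity) hz1.1
  have hBX : 0 ≤ B * X := by positivity
  rw [Pool.Agent.Helper86.SA.mem_ball]
  have e2 : (Ar F t₀ z).2 = z.1 * F.q3 z.2 t₀ / 6 := by
    unfold Ar Fam.x
    field_simp
    ring
  have e1 : (Ar F t₀ z).1 = z.1 * F.p z.2 t₀ / 2 := rfl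
  have key : ∀ v : ℝ, |v| ≤ B₀ → |z.1 * v| ≤ B * B₀ * X := by
    intro v hv
    rw [abs_mul, abs_of_nonneg hr0]
    calc z.1 * |v| ≤ (B * X) * B₀ := mul_le_mul hz1.2 hv (abs_nonneg _) hBX
      _ = B * B₀ * X := by ring
  have k1 := key _ h3
  have k2 := key _ h4
  have h0 : 0 ≤ B * B₀ * X := (abs_nonneg _).trans k1
  constructor
  · rw [e1, Prod.fst_zero, sub_zero, abs_div, abs_of_pos (by norm_num : (0 : ℝ) < 2)]
    linarith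
  · rw [e2, Prod.snd_zero, sub_zero, abs_div, abs_of_pos (by norm_num : (0 : ℝ) < 6)]
    linarith

/-- the moment as a measurable function of the coordinates -/
theorem exQ86 {F : Fam} {B₀ : ℝ} (hF : F.Ok B₀) {t₀ : ℝ} (ht : |t₀| ≤ 3) {s₀ l : ℝ} (hin : In s₀ l) {I : Set ℝ} (hI : IsCompact I)
    (hinj : InjOn (Ar F t₀) (I ×ˢ Icc (s₀ - l) (s₀ + l))) (S : Finset (ℤ × ℤ)) :
    ∃ Q : R2 → ℝ, Measurable Q ∧ ∀ z ∈ I ×ˢ Icc (s₀ - l) (s₀ + l), Q (Ar F t₀ z) = mf F S z.1 z.2 := by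
  obtain ⟨D, hD⟩ : ∃ D : Set R2, D = I ×ˢ Icc (s₀ - l) (s₀ + l) := ⟨_, rfl⟩
  have hc := ArC86 hF ht hin I
  rw [← hD] at hinj hc ⊢
  have hcp : IsCompact D := by rw [hD]; exact hI.prod isCompact_Icc
  have : CompactSpace D := isCompact_iff_compactSpace.1 hcp
  have hf : Continuous (fun z : D => Ar F t₀ z) := continuousOn_iff_continuous_domRestrict.1 hc
  have hfi : Function.Injective (fun z : D => Ar F t₀ z) := fun z z' h => Subtype.ext (hinj z.2 z'.2 h)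
  have hemb := (hf.isClosedEmbedding hfi).measurableEmbedding
  have hmf : Continuous (fun z : R2 => mf F S z.1 z.2) := by
    unfold mf
    refine Pool.Agent.Helper86.SA.m12_ct S _ fun k _ => ee_cont.comp ?_
    refine continuous_fst.mul (continuous_const.mul ?_)
    exact hF.cont.comp (continuous_snd.prodMk continuous_const)
  obtain ⟨Q, hQ, hQe⟩ := hemb.exists_measurable_extend (g := fun z : D => mf F S (z : R2).1 (z : R2).2)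
    (hmf.comp continuous_subtype_val).measurable fun _ => ⟨0⟩
  refine ⟨Q, hQ, fun z hz => ?_⟩
  exact congrFun hQe ⟨z, hz⟩

private theorem RN_empty86 (F : Fam) (s₀ l B X : ℝ) : RN F s₀ l B X ∅ = 0 := by
  unfold RN mf
  have h1 : ∀ a : ℤ × ℤ → ℂ, m12 ∅ a = 0 := by
    intro a
    unfold m12 tp
    simp
  simp only [h1, ENNReal.ofReal_zero, lintegral_zero, mul_zero]

/-! ## The step -/

theorem stepG_of86 {ε lam Λ B₀ B : ℝ} {M n : ℕ} (hl : 1 ≤ lam) (hΛ : 1 ≤ Λ) (hB₀ : 1 ≤ B₀) (hB : 1 ≤ B) (hM : 2 ≤ M)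
    {C₄ E₀ : ℝ} (hC₄ : 1 ≤ C₄) (hE₀ : 1 ≤ E₀) (hbox : Box86 ε lam M n C₄ E₀)
    {C₇ c B' : ℝ} (hc : 0 < c) (hB' : B ≤ B') (hor : OrG86 B₀ B C₇ c B')
    {C₃ w₀ : ℝ} (hC₃ : 1 ≤ C₃) (hw₀ : 0 < w₀) (hw₀1 : w₀ ≤ 1) (hloc : LocG86 B₀ B' lam C₃ w₀)
    {C₅ : ℝ} (hC₅ : 1 ≤ C₅) (hup : UpG86 B₀ B C₅)
    {C₆ : ℝ} (hC₆ : 1 ≤ C₆) (hlo : LoG86 B₀ B' (4 * Λ) C₆) :
    ∃ C B' E : ℝ, ∃ m₁ : ℕ, 1 ≤ C ∧ B ≤ B' ∧ 1 ≤ E ∧ StepG ε lam Λ M n B₀ B C B' E m₁ := by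
  obtain ⟨K, hKd⟩ : ∃ K : ℝ, K = C₃ * C₄ := ⟨_, rfl⟩
  have hK : 1 ≤ K := by rw [hKd]; exact one_le_mul_of_one_le_of_one_le hC₃ hC₄
  have hM1 : (1 : ℝ) < M := by
    have : 1 < M := by omega
    exact_mod_cast this
  have hM0 : (0 : ℝ) < M := by linarith
  obtain ⟨m₀, hm₀⟩ := pow_unbounded_of_one_lt (12 / w₀) hM1
  have hC₅0 : 0 < C₅ := by linarith
  have hC₆0 : 0 < C₆ := by linarith
  have hK0 : 0 < K := by linarith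
  have hE0 : 0 < E₀ := by linarith
  have hB'1 : 1 ≤ B' := hB.trans hB'
  have hB'0 : 0 < B' := by linarith
  obtain ⟨D, hD⟩ : ∃ D, D = B' * B₀ := ⟨_, rfl⟩
  have hD1 : 1 ≤ D := by rw [hD]; exact one_le_mul_of_one_le_of_one_le hB'1 hB₀
  obtain ⟨C, hC⟩ : ∃ C, C = 4 + 4 * B₀ + 4 * K / c + 2 * 12 ^ 4 * K + K * (2 * C₅ * C₆) := ⟨_, rfl⟩
  have hCa : 4 ≤ C := by
    have : 0 ≤ 4 * B₀ + 4 * K / c + 2 * 12 ^ 4 * K + K * (2 * C₅ * C₆) := by positivity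
    linarith
  have hCb : 4 * B₀ ≤ C := by
    have : 0 ≤ 4 + 4 * K / c + 2 * 12 ^ 4 * K + K * (2 * C₅ * C₆) := by positivity
    linarith
  have hCe : 4 * K / c ≤ C := by
    have : 0 ≤ 4 + 4 * B₀ + 2 * 12 ^ 4 * K + K * (2 * C₅ * C₆) := by positivity
    linarith
  have hCc : 2 * 12 ^ 4 * K ≤ C := by
    have : 0 ≤ 4 + 4 * B₀ + 4 * K / c + K * (2 * C₅ * C₆) := by positivity
    linarith
  have hCd : K * (2 * C₅ * C₆) ≤ C := by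
    have : 0 ≤ 4 + 4 * B₀ + 4 * K / c + 2 * 12 ^ 4 * K := by positivity
    linarith
  refine ⟨C, B', 4 * E₀ * D ^ 2, m₀, by linarith, hB', ?_, ?_⟩
  · exact one_le_mul_of_one_le_of_one_le (by linarith) (one_le_pow₀ hD1)
  intro F hF m m' r X H κ σ s₀ l S hm hmm hX hH hκ hcone hσ hin hlσ hgd hc1 hc2
  have hX0 : 0 < X := by linarith
  have hH0 : 0 < H := by linarith
  have hC0 : 0 < C := by linarith
  have hκ4 : 4 ≤ κ := hCa.trans hκ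
  have hκ0 : 0 < κ := by linarith
  have hκ1 : 1 ≤ κ := by linarith
  have hl0 : 0 < l := by
    have := hin.1
    linarith
  have hin1 : In s₀ l := ⟨hl0, by linarith [hin.2.1], by linarith [hin.2.2]⟩
  -- the sector
  obtain ⟨S', hS'⟩ : ∃ S', S' = arc 0 S (M ^ m) r := ⟨_, rfl⟩
  rw [← hS'] at hgd ⊢
  rcases S'.eq_empty_or_nonempty with hemp | hne
  · rw [hemp, RN_empty86, ENNReal.zero_rpow_of_pos (by norm_num)]
    exact bot_le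
  have hsub : S' ⊆ S := by
    rw [hS']
    unfold arc
    exact Finset.filter_subset _ _
  have hMm : 0 < M ^ m := pow_pos (by omega) m
  have hMmR : (0 : ℝ) < (M : ℝ) ^ m := by positivity
  obtain ⟨tc, htc⟩ : ∃ tc : ℝ, tc = 12 * ((r : ℝ) + 1 / 2) / ((M ^ m : ℕ) : ℝ) - 6 := ⟨_, rfl⟩
  obtain ⟨w, hw⟩ : ∃ w : ℝ, w = 12 / (M : ℝ) ^ m := ⟨_, rfl⟩
  have hcast : ((M ^ m : ℕ) : ℝ) = (M : ℝ) ^ m := by push_cast; rfl
  have hw0 : 0 < w := by rw [hw]; positivity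
  have hww : w ≤ w₀ := by
    rw [hw, div_le_iff₀ hMmR]
    have h1 : (M : ℝ) ^ m₀ ≤ (M : ℝ) ^ m := pow_le_pow_right₀ hM1.le hm
    rw [div_lt_iff₀ hw₀] at hm₀
    calc (12 : ℝ) ≤ (M : ℝ) ^ m₀ * w₀ := hm₀.le
      _ ≤ (M : ℝ) ^ m * w₀ := mul_le_mul_of_nonneg_right h1 hw₀.le
      _ = w₀ * (M : ℝ) ^ m := mul_comm _ _
  have hkpos : ∀ k ∈ S, (0 : ℝ) < k.1 := fun k hk => lt_of_lt_of_le (div_pos hH0 (by linarith)) (hcone k hk).1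
  have huu : ∀ k : ℤ × ℤ, uu 0 k = (k.1 : ℝ) := by
    intro k
    unfold uu
    ring
  have htt : ∀ k ∈ S, |tt 0 k| ≤ 2 := by
    intro k hk
    have h1 := hkpos k hk
    unfold tt
    rw [huu, abs_div, abs_of_pos h1, div_le_iff₀ h1]
    exact (hcone k hk).2.2
  have hsl : ∀ k ∈ S', |tt 0 k - tc| ≤ w / 2 := by
    intro k hk
    have e1 : w / 2 = 6 / ((M ^ m : ℕ) : ℝ) := by
      rw [hw, hcast]
      ring
    rw [htc, e1]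
    rw [hS'] at hk
    exact Pool.Agent.Helper86.SA.arc_slope hMm hk (htt k (hsub (by rw [hS']; exact hk)))
  obtain ⟨k₀, hk₀⟩ := hne
  obtain ⟨t₀, ht₀⟩ : ∃ t₀ : ℝ, t₀ = tt 0 k₀ := ⟨_, rfl⟩
  have hslope : ∀ k ∈ S', |tt 0 k - t₀| ≤ w := by
    intro k hk
    have h1 := abs_le.1 (hsl k hk)
    have h2 := abs_le.1 (hsl k₀ hk₀)
    rw [ht₀, abs_le]
    constructor
    · linarith
    · linarith
  have ht₀3 : |t₀| ≤ 3 := by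
    rw [ht₀]
    linarith [htt k₀ (hsub hk₀)]
  have ht₀12 : |t₀| ≤ 12 := by linarith
  obtain ⟨hg1, hg2⟩ := hgd k₀ hk₀
  rw [← ht₀] at hg1 hg2
  have hSw : ∀ k ∈ S', H / lam ≤ uu 0 k ∧ uu 0 k ≤ lam * H ∧ |tt 0 k - t₀| ≤ w := by
    intro k hk
    have h1 := hcone k (hsub hk)
    rw [huu]
    exact ⟨h1.1, h1.2.1, hslope k hk⟩
  -- the derivative of the shear on the interval
  obtain ⟨σ', hσ'⟩ : ∃ σ', σ' = σ / 2 := ⟨_, rfl⟩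
  have hσ'0 : 0 < σ' := by rw [hσ']; positivity
  have hs₀m : s₀ ∈ Icc (-1 : ℝ) 2 := ⟨by linarith [hin.2.1], by linarith [hin.2.2]⟩
  have hJ : ∀ v ∈ Icc (s₀ - 2 * l) (s₀ + 2 * l), σ' ≤ |F.J v t₀| ∧ |F.J v t₀| ≤ 4 * Λ * σ' := by
    intro v hv
    have hvm : v ∈ Icc (-1 : ℝ) 2 := ⟨hin.2.1.trans hv.1, hv.2.trans hin.2.2⟩
    have h1 := (hF.lipJ v hvm s₀ hs₀m t₀ t₀ ht₀12 ht₀12).1
    rw [sub_self, abs_zero, add_zero] at h1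
    have h2 : |v - s₀| ≤ 2 * l := by
      rw [abs_le]
      constructor
      · linarith [hv.1]
      · linarith [hv.2]
    have h3 : B₀ * |v - s₀| ≤ σ / 2 := by
      have : B₀ * |v - s₀| ≤ B₀ * (2 * l) := mul_le_mul_of_nonneg_left h2 (by linarith)
      have h4 : 4 * B₀ * l ≤ C * l := mul_le_mul_of_nonneg_right hCb hl0.le
      linarith
    have h5 : |F.J v t₀ - F.J s₀ t₀| ≤ σ / 2 := h1.trans h3
    have h6 := abs_sub_abs_le_abs_sub (F.J v t₀) (F.J s₀ t₀)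
    have h7 := abs_sub_abs_le_abs_sub (F.J s₀ t₀) (F.J v t₀)
    rw [abs_sub_comm (F.J s₀ t₀)] at h7
    rw [hσ']
    constructor
    · linarith
    · have : σ ≤ Λ * σ := le_mul_of_one_le_left hσ.le hΛ
      linarith
  have hJ1 : ∀ v ∈ Icc (s₀ - l) (s₀ + l), σ' ≤ |F.J v t₀| := fun v hv =>
    (hJ v ⟨by linarith [hv.1], by linarith [hv.2]⟩).1
  -- the regions
  obtain ⟨O₁, hO₁⟩ : ∃ O₁, O₁ = OR F t₀ s₀ l B X := ⟨_, rfl⟩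
  obtain ⟨O₃, hO₃⟩ : ∃ O₃, O₃ = OR F t₀ s₀ (2 * l) B' X := ⟨_, rfl⟩
  obtain ⟨-, -, nz, hinj⟩ := hor F hF X σ' t₀ s₀ l hX0 ht₀3 hσ'0 hin fun v hv => (hJ v hv).1
  have c1 : IsCompact O₁ := by rw [hO₁]; exact OR_cpt86 hF ht₀3 hin1 B X
  have c3 : IsCompact O₃ := by rw [hO₃]; exact OR_cpt86 hF ht₀3 hin B' X
  have hXB : X / B' ≤ X / B := div_le_div_of_nonneg_left hX0.le (by linarith) hB'
  have hBX : B * X ≤ B' * X := mul_le_mul_of_nonneg_right hB' hX0.le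
  obtain ⟨I, hI⟩ : ∃ I, I = Icc (X / B') (B' * X) := ⟨_, rfl⟩
  have hinj' : InjOn (Ar F t₀) (I ×ˢ Icc (s₀ - 2 * l) (s₀ + 2 * l)) := by
    refine hinj.mono (prod_mono (fun v hv => ?_) Subset.rfl)
    rw [hI] at hv
    exact lt_of_lt_of_le (by positivity) hv.1
  -- the radius
  obtain ⟨ρ, hρ⟩ : ∃ ρ : ℝ, ρ = K * (M : ℝ) ^ (3 * m') / H := ⟨_, rfl⟩
  have hρ0 : 0 < ρ := by rw [hρ]; positivity
  have hρH : K * (M : ℝ) ^ (3 * m') = H * ρ := by rw [hρ]; field_simp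
  have hP0 : 0 < κ * (M : ℝ) ^ (3 * m') := by positivity
  have hnear : ρ + κ * ρ ≤ c * (σ' * l) * X := by
    have h1 : 4 * K ≤ C * c := by
      rw [div_le_iff₀ hc] at hCe
      exact hCe
    have h2 : κ * ρ = K * (κ * (M : ℝ) ^ (3 * m')) / H := by
      rw [hρ]
      ring
    have h3 : 4 * (κ * ρ) ≤ c * (σ * l) * X := by
      rw [h2, ← mul_div_assoc, div_le_iff₀ hH0]
      calc 4 * (K * (κ * (M : ℝ) ^ (3 * m'))) = 4 * K * (κ * (M : ℝ) ^ (3 * m')) := by ring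
        _ ≤ C * c * (κ * (M : ℝ) ^ (3 * m')) := mul_le_mul_of_nonneg_right h1 hP0.le
        _ = c * (C * κ * (M : ℝ) ^ (3 * m')) := by ring
        _ ≤ c * (σ * (l * (X * H))) := mul_le_mul_of_nonneg_left hc1 hc.le
        _ = c * (σ * l) * X * H := by ring
    have h4 : ρ ≤ κ * ρ := le_mul_of_one_le_left hρ0.le hκ1
    have h5 : c * (σ' * l) * X = c * (σ * l) * X / 2 := by rw [hσ']; ring
    rw [h5]
    linarith
  have hcond : κ * ρ * H * w ^ 4 ≤ σ' := by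
    have e : κ * ρ * H * w ^ 4 = (12 ^ 4 * K) * (κ * (M : ℝ) ^ (3 * m')) / (M : ℝ) ^ (4 * m) := by
      rw [hρ, hw, pow_mul' (M : ℝ) 4 m]
      field_simp
    rw [e, div_le_iff₀ (by positivity), hσ']
    have h1 : 2 * ((12 ^ 4 * K) * (κ * (M : ℝ) ^ (3 * m'))) ≤ σ * (M : ℝ) ^ (4 * m) := by
      calc 2 * ((12 ^ 4 * K) * (κ * (M : ℝ) ^ (3 * m'))) = (2 * 12 ^ 4 * K) * (κ * (M : ℝ) ^ (3 * m')) := by ring
        _ ≤ C * (κ * (M : ℝ) ^ (3 * m')) := mul_le_mul_of_nonneg_right hCc hP0.le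
        _ = C * κ * (M : ℝ) ^ (3 * m') := by ring
        _ ≤ _ := hc2
    linarith
  obtain ⟨O₂, hO₂⟩ : ∃ O₂, O₂ = Metric.cthickening ρ O₁ := ⟨_, rfl⟩
  have m2 : MeasurableSet O₂ := by rw [hO₂]; exact Metric.isClosed_cthickening.measurableSet
  have n1 : ∀ A ∈ O₁, Metric.closedBall A ρ ⊆ O₂ := by
    intro A hA
    rw [hO₂]
    exact Metric.closedBall_subset_cthickening hA ρ
  have n2 : ∀ z ∈ O₂, Metric.closedBall z (κ * ρ) ⊆ O₃ := by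
    intro z hz
    rw [hO₂, c1.cthickening_eq_biUnion_closedBall hρ0.le] at hz
    obtain ⟨A, hA, hzA⟩ := mem_iUnion₂.1 hz
    have h1 : Metric.closedBall z (κ * ρ) ⊆ Metric.closedBall A (c * (σ' * l) * X) := by
      intro v hv
      rw [Metric.mem_closedBall] at hv hzA ⊢
      calc dist v A ≤ dist v z + dist z A := dist_triangle _ _ _
        _ ≤ κ * ρ + ρ := add_le_add hv hzA
        _ ≤ _ := by linarith
    rw [hO₁] at hA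
    obtain ⟨y, hy, rfl⟩ := hA
    rw [hO₃]
    exact h1.trans (nz y hy)
  have h23 : O₂ ⊆ O₃ := fun z hz => n2 z hz (Metric.mem_closedBall_self (by positivity))
  have hv : volume O₂ ≤ ENNReal.ofReal ((2 * (D * X)) ^ 2) := by
    refine (measure_mono (h23.trans ?_)).trans (le_of_eq (Pool.Agent.Helper86.SA.vol_ball 0 (by positivity : 0 ≤ D * X)))
    rw [hO₃, hD]
    exact OR_bd86 hF ht₀3 hin hB'1 hX0
  -- the functions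
  choose Q hQm hQe using fun S'' => exQ86 hF ht₀3 hin (I := I) (by rw [hI]; exact isCompact_Icc) hinj' S''
  have hex : ∀ z : R2, ∃ a : ℤ × ℤ → ℂ, (∀ k, ‖a k‖ ≤ 1) ∧ (z ∈ O₃ → ∃ y ∈ I ×ˢ Icc (s₀ - 2 * l) (s₀ + 2 * l), Ar F t₀ y = z ∧
      a = fun k => ee (y.1 * ((k.1 : ℝ) * F.q y.2 (tt 0 k)))) := by
    intro z
    by_cases hz : z ∈ O₃
    · have hz' := hz
      rw [hO₃] at hz'
      obtain ⟨y, hy, hyz⟩ := hz'
      refine ⟨fun k => ee (y.1 * ((k.1 : ℝ) * F.q y.2 (tt 0 k))), fun k => (ee_norm _).le, fun _ => ⟨y, by rw [hI]; exact hy, hyz, rfl⟩⟩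
    · exact ⟨fun _ => 1, fun k => by simp, fun h => absurd h hz⟩
  choose a ha1 ha2 using hex
  have hcmp : ∀ z ∈ O₂, ∀ S'' ⊆ S', ∀ A ∈ Metric.closedBall z (κ * ρ), Q S'' A ≤ C₃ * lf2 t₀ S'' (a z) (A - z) ∧ lf2 t₀ S'' (a z) (A - z) ≤ C₃ * Q S'' A := by
    intro z hz S'' hS'' A hA
    obtain ⟨y, hy, hyz, hay⟩ := ha2 z (h23 hz)
    have hA3 := n2 z hz hA
    rw [hO₃] at hA3
    obtain ⟨y', hy', hyA⟩ := hA3
    rw [hI] at hy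
    have hb := (Pool.Agent.Helper86.SA.mem_ball A z (κ * ρ)).1 hA
    have h1 := hloc F hF X H w (κ * ρ) σ' t₀ s₀ (2 * l) y.1 y.2 y'.1 y'.2 S'' hX0 hH0 hw0 hww ht₀3 hσ'0 hin (fun v hv => (hJ v hv).1)
      hy.1 hy'.1 hy.2 hy'.2 (by rw [Prod.mk.eta, Prod.mk.eta, hyz, hyA]; exact hb.1) (by rw [Prod.mk.eta, Prod.mk.eta, hyz, hyA]; exact hb.2)
      (fun k hk => by
        obtain ⟨g1, g2, g3⟩ := hSw k (hS'' hk)
        exact ⟨lt_of_lt_of_le (by positivity) g1, g2, g3⟩) hcond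
    rw [Prod.mk.eta, Prod.mk.eta, hyz, hyA, ← hay] at h1
    have h2 := hQe S'' y' (by rw [hI]; exact hy')
    rw [hyA] at h2
    rw [h2]
    exact h1
  obtain ⟨V, hV⟩ : ∃ V, V = (2 * (D * X)) ^ 2 := ⟨_, rfl⟩
  have hV0 : 0 ≤ V := by rw [hV]; positivity
  rw [← hV] at hv
  have hmain := Pool.Agent.Helper86.SA.step hC₃ hC₄ hE₀ hbox hM m' H ρ κ t₀ V S' Q a O₁ O₂ O₃ hH0 hρ0 hκ4 hV0 ht₀3 ha1
    (fun k hk => ⟨(hSw k hk).1, (hSw k hk).2.1, (hSw k hk).2.2.trans (hww.trans hw₀1)⟩) hQm c1.isClosed.measurableSet m2 c3.isClosed.measurableSet n1 n2 hv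
    hcmp (by rw [← hKd]; exact hρH.le)
  rw [← hKd] at hmain
  obtain ⟨q1, hq1⟩ : ∃ q1 : ℝ, q1 = (S'.card : ℝ) ^ 12 := ⟨_, rfl⟩
  obtain ⟨q2, hq2⟩ : ∃ q2 : ℝ, q2 = (S.card : ℝ) ^ 12 := ⟨_, rfl⟩
  have hq10 : 0 ≤ q1 := by rw [hq1]; exact pow_nonneg (Nat.cast_nonneg _) 12
  have hq12 : q1 ≤ q2 := by
    rw [hq1, hq2]
    exact pow_le_pow_left₀ (Nat.cast_nonneg _) (by exact_mod_cast Finset.card_le_card hsub) 12
  have hq20 : 0 ≤ q2 := hq10.trans hq12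
  rw [← hq1] at hmain
  rw [← hq2]
  obtain ⟨Sj, hSj⟩ : ∃ Sj : ℕ → Finset (ℤ × ℤ), Sj = fun j => arc 0 S' (M ^ m') j := ⟨_, rfl⟩
  -- the integral over the family
  have hIr : ∀ (S'' : Finset (ℤ × ℤ)) (B'' l'' : ℝ), 1 ≤ B'' → B'' ≤ B' → l'' ≤ 2 * l → ∫⁻ s in Icc (s₀ - l'') (s₀ + l''), ∫⁻ r in Icc (X / B'') (B'' * X), ENNReal.ofReal (mf F S'' r s) =
      ∫⁻ s in Icc (s₀ - l'') (s₀ + l''), ∫⁻ r in Icc (X / B'') (B'' * X), ENNReal.ofReal (Q S'' (Ar F t₀ (r, s))) := by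
    intro S'' B'' l'' h1 h2 h3
    refine setLIntegral_congr_fun measurableSet_Icc fun s hs => ?_
    refine setLIntegral_congr_fun measurableSet_Icc fun r hr => ?_
    have hmem : ((r, s) : R2) ∈ I ×ˢ Icc (s₀ - 2 * l) (s₀ + 2 * l) := by
      rw [hI]
      refine ⟨⟨?_, ?_⟩, ⟨?_, ?_⟩⟩
      · exact (div_le_div_of_nonneg_left hX0.le (by linarith) h2).trans hr.1
      · exact hr.2.trans (mul_le_mul_of_nonneg_right h2 hX0.le)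
      · have := hs.1
        change s₀ - 2 * l ≤ s
        linarith
      · have := hs.2
        change s ≤ s₀ + 2 * l
        linarith
    have := hQe S'' (r, s) hmem
    rw [this]
  obtain ⟨c₂, hc₂⟩ : ∃ c₂ : ℝ, c₂ = l⁻¹ * (C₅ / (X * σ')) := ⟨_, rfl⟩
  have hc₂0 : 0 < c₂ := by rw [hc₂]; positivity
  have b1 : RN F s₀ l B X S' ≤ ENNReal.ofReal c₂ * ∫⁻ A in O₁, ENNReal.ofReal (Q S' A) := by
    unfold RN
    rw [hIr S' B l hB hB' (by linarith), hc₂, ENNReal.ofReal_mul (by positivity), mul_assoc, hO₁]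
    exact mul_le_mul' le_rfl (hup F hF X σ' t₀ s₀ l (fun A => ENNReal.ofReal (Q S' A)) hX0 ht₀3 hσ'0 hin1 hJ1 (hQm S').ennreal_ofReal)
  have b3 : ∀ j, ∫⁻ A in O₃, ENNReal.ofReal (Q (Sj j) A) ≤ ENNReal.ofReal (C₆ * X * σ' * (2 * l)) * RN F s₀ (2 * l) B' X (Sj j) := by
    intro j
    have h1 := hlo F hF X σ' t₀ s₀ (2 * l) (fun A => ENNReal.ofReal (Q (Sj j) A)) hX0 ht₀3 hσ'0 hin hJ (hQm (Sj j)).ennreal_ofReal
    rw [← hO₃] at h1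
    refine h1.trans (le_of_eq ?_)
    unfold RN
    rw [hIr (Sj j) B' (2 * l) hB'1 le_rfl le_rfl, ← mul_assoc, ← ENNReal.ofReal_mul (by positivity : 0 ≤ C₆ * X * σ' * (2 * l))]
    congr 2
    field_simp
  have b2 : ∀ j, ENNReal.ofReal c₂ * ((∫⁻ A in O₃, ENNReal.ofReal (Q (Sj j) A)) + ENNReal.ofReal (E₀ * V * q1 * κ⁻¹ ^ n)) ≤ ENNReal.ofReal (2 * C₅ * C₆) *
      (RN F s₀ (2 * l) B' X (Sj j) + ENNReal.ofReal (4 * E₀ * D ^ 2 * (X / (σ * l)) * q2 * κ⁻¹ ^ n)) := by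
    intro j
    rw [mul_add, mul_add, ← ENNReal.ofReal_mul hc₂0.le, ← ENNReal.ofReal_mul (by positivity : 0 ≤ 2 * C₅ * C₆)]
    refine add_le_add ?_ (ENNReal.ofReal_le_ofReal ?_)
    · refine (mul_le_mul' le_rfl (b3 j)).trans ?_
      rw [← mul_assoc, ← ENNReal.ofReal_mul hc₂0.le]
      refine mul_le_mul' (ENNReal.ofReal_le_ofReal (le_of_eq ?_)) le_rfl
      rw [hc₂]
      field_simp
    · have e2 : c₂ * (E₀ * V * q1 * κ⁻¹ ^ n) = 2 * C₅ * (4 * E₀ * D ^ 2 * (X / (σ * l)) * q1 * κ⁻¹ ^ n) := by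
        rw [hc₂, hV, hσ']
        field_simp
        ring
      rw [e2]
      have h3 : 0 ≤ 4 * E₀ * D ^ 2 * (X / (σ * l)) := by positivity
      have h4 : 4 * E₀ * D ^ 2 * (X / (σ * l)) * q1 * κ⁻¹ ^ n ≤ 4 * E₀ * D ^ 2 * (X / (σ * l)) * q2 * κ⁻¹ ^ n :=
        mul_le_mul_of_nonneg_right (mul_le_mul_of_nonneg_left hq12 h3) (by positivity)
      have h5 : 0 ≤ 4 * E₀ * D ^ 2 * (X / (σ * l)) * q2 * κ⁻¹ ^ n := by positivity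
      calc 2 * C₅ * (4 * E₀ * D ^ 2 * (X / (σ * l)) * q1 * κ⁻¹ ^ n) ≤ 2 * C₅ * (4 * E₀ * D ^ 2 * (X / (σ * l)) * q2 * κ⁻¹ ^ n) :=
            mul_le_mul_of_nonneg_left h4 (by positivity)
        _ ≤ 2 * C₅ * C₆ * (4 * E₀ * D ^ 2 * (X / (σ * l)) * q2 * κ⁻¹ ^ n) := by
            refine mul_le_mul_of_nonneg_right ?_ h5
            exact le_mul_of_one_le_right (by positivity) hC₆
  have hQ : (2 * C₅ * C₆) ^ (1 / 6 : ℝ) ≤ 2 * C₅ * C₆ := by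
    have h1 : 1 ≤ 2 * C₅ * C₆ := one_le_mul_of_one_le_of_one_le (by linarith) hC₆
    calc (2 * C₅ * C₆) ^ (1 / 6 : ℝ) ≤ (2 * C₅ * C₆) ^ (1 : ℝ) := rpow_le_rpow_of_exponent_le h1 (by norm_num)
      _ = _ := rpow_one _
  have hMe : 0 ≤ (M : ℝ) ^ (ε * (m' : ℝ)) := rpow_nonneg hM0.le _
  obtain ⟨K', hK'⟩ : ∃ K' : ENNReal, K' = ENNReal.ofReal (K * (M : ℝ) ^ (ε * (m' : ℝ)) * κ) := ⟨_, rfl⟩
  rw [← hK'] at hmain
  calc RN F s₀ l B X S' ^ (1 / 6 : ℝ) ≤ (ENNReal.ofReal c₂ * ∫⁻ A in O₁, ENNReal.ofReal (Q S' A)) ^ (1 / 6 : ℝ) :=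
        ENNReal.rpow_le_rpow b1 (by norm_num)
    _ = ENNReal.ofReal c₂ ^ (1 / 6 : ℝ) * (∫⁻ A in O₁, ENNReal.ofReal (Q S' A)) ^ (1 / 6 : ℝ) :=
        ENNReal.mul_rpow_of_nonneg _ _ (by norm_num)
    _ ≤ ENNReal.ofReal c₂ ^ (1 / 6 : ℝ) * (K' * ∑ j ∈ Finset.range (M ^ m'), ((∫⁻ A in O₃, ENNReal.ofReal (Q (Sj j) A)) +
          ENNReal.ofReal (E₀ * V * q1 * κ⁻¹ ^ n)) ^ (1 / 6 : ℝ)) := by
        rw [hSj]
        exact mul_le_mul' le_rfl hmain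
    _ = K' * ∑ j ∈ Finset.range (M ^ m'), (ENNReal.ofReal c₂ * ((∫⁻ A in O₃, ENNReal.ofReal (Q (Sj j) A)) +
          ENNReal.ofReal (E₀ * V * q1 * κ⁻¹ ^ n))) ^ (1 / 6 : ℝ) := by
        simp only [ENNReal.mul_rpow_of_nonneg _ _ (by norm_num : (0 : ℝ) ≤ 1 / 6)]
        rw [← Finset.mul_sum]
        ring
    _ ≤ K' * ∑ j ∈ Finset.range (M ^ m'), (ENNReal.ofReal (2 * C₅ * C₆) *
          (RN F s₀ (2 * l) B' X (Sj j) + ENNReal.ofReal (4 * E₀ * D ^ 2 * (X / (σ * l)) * q2 * κ⁻¹ ^ n))) ^ (1 / 6 : ℝ) :=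
        mul_le_mul' le_rfl (Finset.sum_le_sum fun j _ => ENNReal.rpow_le_rpow (b2 j) (by norm_num))
    _ = (K' * ENNReal.ofReal (2 * C₅ * C₆) ^ (1 / 6 : ℝ)) * ∑ j ∈ Finset.range (M ^ m'),
          (RN F s₀ (2 * l) B' X (Sj j) + ENNReal.ofReal (4 * E₀ * D ^ 2 * (X / (σ * l)) * q2 * κ⁻¹ ^ n)) ^ (1 / 6 : ℝ) := by
        simp only [ENNReal.mul_rpow_of_nonneg _ _ (by norm_num : (0 : ℝ) ≤ 1 / 6)]
        rw [← Finset.mul_sum]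
        ring
    _ ≤ _ := by
        rw [hSj]
        refine mul_le_mul' ?_ le_rfl
        rw [hK', ENNReal.ofReal_rpow_of_nonneg (by positivity) (by norm_num), ← ENNReal.ofReal_mul (by positivity)]
        refine ENNReal.ofReal_le_ofReal ?_
        calc K * (M : ℝ) ^ (ε * (m' : ℝ)) * κ * (2 * C₅ * C₆) ^ (1 / 6 : ℝ) ≤ K * (M : ℝ) ^ (ε * (m' : ℝ)) * κ * (2 * C₅ * C₆) :=
              mul_le_mul_of_nonneg_left hQ (by positivity)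
          _ = (K * (2 * C₅ * C₆)) * (κ * (M : ℝ) ^ (ε * (m' : ℝ))) := by ring
          _ ≤ C * (κ * (M : ℝ) ^ (ε * (m' : ℝ))) := mul_le_mul_of_nonneg_right hCd (by positivity)
          _ = C * κ * (M : ℝ) ^ (ε * (m' : ℝ)) := by ring

end Pool.Agent.Helper60.GM
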